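import Mathlib

/-! Elementary lemmas: online rounding, rounding of low coefficients, counting zeros. -/

namespace Pool.Agent.MP_108ce6_nt.H25

open Finset Polynomial

lemma mix {p x₁ x₂ v : ℝ} (hp0 : 0 ≤ p) (hp1 : p ≤ 1) (hm : p * x₁ + (1 - p) * x₂ = 0)
    (a1 : |x₁| ≤ 1) (a2 : |x₂| ≤ 1) (b1 : x₁ ^ 2 ≤ v) (b2 : x₂ ^ 2 ≤ v) :
    p * Real.exp x₁ + (1 - p) * Real.exp x₂ ≤ Real.exp v := by
  have e1 := (abs_le.1 (Real.abs_exp_sub_one_sub_id_le a1)).2
  have e2 := (abs_le.1 (Real.abs_exp_sub_one_sub_id_le a2)).2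
  have e3 := Real.add_one_le_exp v
  have f1 := mul_le_mul_of_nonneg_left (by linarith : Real.exp x₁ ≤ 1 + x₁ + v) hp0
  have f2 := mul_le_mul_of_nonneg_left (by linarith : Real.exp x₂ ≤ 1 + x₂ + v)
    (by linarith : 0 ≤ 1 - p)
  nlinarith

lemma online {ι : Type*} [Fintype ι] (y : ι → ℕ → ℝ) (Δ v : ℕ → ℝ)
    (t : ℕ → (ℕ → ℝ) → ℝ) (ht : ∀ k a b, (∀ j < k, a j = b j) → t k a = t k b)
    (hΔ : ∀ k, 0 < Δ k) (h1 : ∀ i k, Δ k * |y i k| ≤ 1) (h2 : ∀ i k, (Δ k * y i k) ^ 2 ≤ v k)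
    (K : ℕ) : ∃ a : ℕ → ℝ, (∀ k < K, |a k| ≤ Δ k ∧ ∃ z : ℤ, t k a + a k = Δ k * z) ∧
      ∑ i, Real.exp (∑ k ∈ range K, a k * y i k) ≤
        Fintype.card ι * Real.exp (∑ k ∈ range K, v k) := by
  induction K with
  | zero => exact ⟨fun _ => 0, by simp, by simp⟩
  | succ K ih =>
    obtain ⟨a, ha, hs⟩ := ih
    have key : ∀ x : ℝ, |x| ≤ Δ K → (∃ z : ℤ, t K a + x = Δ K * z) →
        ∑ i, Real.exp (∑ k ∈ range K, a k * y i k) * Real.exp (x * y i K) ≤
          (∑ i, Real.exp (∑ k ∈ range K, a k * y i k)) * Real.exp (v K) →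
        ∃ a : ℕ → ℝ, (∀ k < K + 1, |a k| ≤ Δ k ∧ ∃ z : ℤ, t k a + a k = Δ k * z) ∧
          ∑ i, Real.exp (∑ k ∈ range (K + 1), a k * y i k) ≤
            Fintype.card ι * Real.exp (∑ k ∈ range (K + 1), v k) := by
      intro x hx hz hle
      have hu : ∀ j < K, Function.update a K x j = a j := fun j hj =>
        Function.update_of_ne hj.ne _ _
      refine ⟨Function.update a K x, fun k hk => ?_, ?_⟩
      · have e : t k (Function.update a K x) = t k a := ht k _ _ fun j hj => hu j (by omega)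
        rw [e]
        rcases (Nat.lt_succ_iff.1 hk).lt_or_eq with h | rfl
        · rw [hu k h]; exact ha k h
        · rw [Function.update_self]; exact ⟨hx, hz⟩
      · have e : ∀ i, ∑ k ∈ range (K + 1), Function.update a K x k * y i k =
            ∑ k ∈ range K, a k * y i k + x * y i K := fun i => by
          rw [sum_range_succ, Function.update_self]
          congr 1
          exact sum_congr rfl fun k hk => by rw [hu k (mem_range.1 hk)]
        simp only [e, Real.exp_add, sum_range_succ]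
        refine hle.trans ?_
        rw [← mul_assoc]
        exact mul_le_mul_of_nonneg_right hs (Real.exp_pos _).le
    have hD := hΔ K
    set z : ℤ := ⌊t K a / Δ K⌋ with hzdef
    set p : ℝ := t K a / Δ K - z with hp
    have p0 : 0 ≤ p := by have := Int.floor_le (t K a / Δ K); linarith
    have p1 : p ≤ 1 := by have := Int.lt_floor_add_one (t K a / Δ K); linarith
    have et : t K a = Δ K * (z + p) := by rw [hp]; field_simp; ring
    have bd : ∀ q : ℝ, |q| ≤ 1 → ∀ i, |q * Δ K * y i K| ≤ 1 ∧ (q * Δ K * y i K) ^ 2 ≤ v K := by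
      intro q hq i
      have q2 : q ^ 2 ≤ 1 := by rwa [sq_le_one_iff_abs_le_one]
      constructor
      · rw [mul_assoc, abs_mul, abs_mul, abs_of_pos hD]
        exact mul_le_one₀ hq (by positivity) (h1 i K)
      · rw [mul_assoc, mul_pow]
        exact (mul_le_of_le_one_left (sq_nonneg _) q2).trans (h2 i K)
    have q1 : |1 - p| ≤ 1 := abs_le.2 ⟨by linarith, by linarith⟩
    have q2 : |-p| ≤ 1 := abs_le.2 ⟨by linarith, by linarith⟩
    have av : p * (∑ i, Real.exp (∑ k ∈ range K, a k * y i k) * Real.exp ((1 - p) * Δ K * y i K))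
        + (1 - p) * (∑ i, Real.exp (∑ k ∈ range K, a k * y i k) * Real.exp (-p * Δ K * y i K)) ≤
        (∑ i, Real.exp (∑ k ∈ range K, a k * y i k)) * Real.exp (v K) := by
      rw [mul_sum, mul_sum, ← sum_add_distrib, sum_mul]
      refine sum_le_sum fun i _ => ?_
      have := mul_le_mul_of_nonneg_left (mix p0 p1 (by ring) (bd _ q1 i).1 (bd _ q2 i).1
        (bd _ q1 i).2 (bd _ q2 i).2) (Real.exp_pos (∑ k ∈ range K, a k * y i k)).le
      linarith
    have ab : ∀ q : ℝ, |q| ≤ 1 → |q * Δ K| ≤ Δ K := fun q hq => by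
      rw [abs_mul, abs_of_pos hD]; exact mul_le_of_le_one_left hD.le hq
    by_cases hc : ∑ i, Real.exp (∑ k ∈ range K, a k * y i k) * Real.exp ((1 - p) * Δ K * y i K) ≤
        (∑ i, Real.exp (∑ k ∈ range K, a k * y i k)) * Real.exp (v K)
    · exact key _ (ab _ q1) ⟨z + 1, by rw [et]; push_cast; ring⟩ hc
    · refine key _ (ab _ q2) ⟨z, by rw [et]; ring⟩ ?_
      have p2 : p < 1 := by have := Int.lt_floor_add_one (t K a / Δ K); linarith
      have := mul_le_mul_of_nonneg_left (not_le.1 hc).le p0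
      refine le_of_mul_le_mul_left ?_ (by linarith : 0 < 1 - p)
      linarith

lemma round (Q : ℕ → ℝ[X]) (I : Set ℝ) (w : ℕ → ℝ) (h0 : ∀ j i, j < i → (Q j).coeff i = 0)
    (h1 : ∀ j, (Q j).coeff j = 1) (hw : ∀ j, ∀ x ∈ I, |(Q j).eval x| ≤ w j) (m J : ℕ) :
    ∀ P : ℝ[X], ∃ T : Finset ℝ[X], m ^ J ≤ T.card ∧ ∀ R ∈ T, (∀ i, J ≤ i → R.coeff i = P.coeff i) ∧
      (∀ i < J, ∃ z : ℤ, R.coeff i = 2 + 4 * z) ∧
      ∀ x ∈ I, |R.eval x - P.eval x| ≤ ∑ j ∈ range J, 4 * m * w j := by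
  classical
  induction J with
  | zero => exact fun P => ⟨{P}, by simp, by simp⟩
  | succ J ih =>
    intro P
    set z : ℤ := ⌊(P.coeff J - 2) / 4⌋
    have z1 := Int.floor_le ((P.coeff J - 2) / 4)
    have z2 := Int.lt_floor_add_one ((P.coeff J - 2) / 4)
    choose T hT hR using fun i : ℕ => ih (P + C (2 + 4 * (z + i) - P.coeff J) * Q J)
    have e4 : ∀ i : ℕ, ∀ R ∈ T i, R.coeff J = 2 + 4 * (z + i) := fun i R h => by
      rw [(hR i R h).1 J le_rfl, coeff_add, coeff_C_mul, h1]; ring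
    refine ⟨(range m).biUnion T, ?_, fun R hRT => ?_⟩
    · rw [card_biUnion fun i _ j _ hij => disjoint_left.2 fun R a b => hij (by
        have e1 := e4 i R a
        rw [e4 j R b] at e1
        exact_mod_cast (by linarith : (i : ℝ) = j)), pow_succ']
      simpa using card_nsmul_le_sum (range m) (fun i => (T i).card) _ fun i _ => hT i
    · obtain ⟨k, hk, hRT⟩ := mem_biUnion.1 hRT
      obtain ⟨e1, e2, e3⟩ := hR k R hRT
      refine ⟨fun i hi => ?_, fun i hi => ?_, fun x hx => ?_⟩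
      · rw [e1 i (by omega), coeff_add, coeff_C_mul, h0 J i hi]; ring
      · rcases (Nat.lt_succ_iff.1 hi).lt_or_eq with h | rfl
        · exact e2 i h
        · exact ⟨z + k, by rw [e4 k R hRT]; push_cast; ring⟩
      · have e5 := e3 x hx
        rw [eval_add, eval_mul, eval_C] at e5
        have k0 : (0 : ℝ) ≤ k := k.cast_nonneg
        have k1 : (k : ℝ) + 1 ≤ m := by exact_mod_cast mem_range.1 hk
        have e6 : |(2 + 4 * (z + k) - P.coeff J) * (Q J).eval x| ≤ 4 * m * w J := by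
          rw [abs_mul]
          exact mul_le_mul (abs_le.2 ⟨by linarith, by linarith⟩) (hw J x hx) (abs_nonneg _)
            (by positivity)
        rw [sum_range_succ]
        have e7 := abs_le.1 e5
        have e8 := abs_le.1 e6
        exact abs_le.2 ⟨by linarith, by linarith⟩

lemma zeros (Θ g : ℝ → ℝ) (n : ℕ) (hΘ : Continuous Θ) (hg : Continuous g) (h0 : Θ 0 = 0)
    {b : ℝ} (hb : 0 ≤ b) (h1 : n * Real.pi ≤ Θ b)
    (hs : ∀ φ ∈ Set.Icc 0 b, ∀ j : ℕ, Θ φ = j * Real.pi → 0 < (-1) ^ j * g φ) :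
    ∃ Z : Finset ℝ, Z.card = n ∧ ∀ z ∈ Z, z ∈ Set.Icc 0 b ∧ g z = 0 := by
  classical
  have key : ∀ j ≤ n, ∃ φ ∈ Set.Icc 0 b, Θ φ = j * Real.pi ∧
      ∃ Z : Finset ℝ, Z.card = j ∧ ∀ z ∈ Z, 0 ≤ z ∧ z < φ ∧ g z = 0 := by
    intro j
    induction j with
    | zero => exact fun _ => ⟨0, ⟨le_rfl, hb⟩, by simp [h0], ∅, rfl, by simp⟩
    | succ j ih =>
      intro hj
      obtain ⟨φ, hφ, e1, Z, c, hZ⟩ := ih (by omega)
      have hj' : ((j + 1 : ℕ) : ℝ) ≤ n := by exact_mod_cast hj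
      obtain ⟨ψ, hψ, e2⟩ := intermediate_value_Icc hφ.2 hΘ.continuousOn
        (show ((j + 1 : ℕ) : ℝ) * Real.pi ∈ Set.Icc (Θ φ) (Θ b) from
          ⟨by rw [e1]; push_cast; linarith [Real.pi_pos],
            (mul_le_mul_of_nonneg_right hj' Real.pi_pos.le).trans h1⟩)
      have s1 := hs φ hφ j e1
      have s2 := hs ψ ⟨hφ.1.trans hψ.1, hψ.2⟩ (j + 1) e2
      rw [pow_succ] at s2
      obtain ⟨z, hz, e3⟩ := intermediate_value_Icc' hψ.1
        (f := fun x => (-1) ^ j * g x) (continuous_const.mul hg).continuousOn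
        (show (0 : ℝ) ∈ Set.Icc ((-1) ^ j * g ψ) ((-1) ^ j * g φ) from ⟨by linarith, s1.le⟩)
      have e4 : g z = 0 := (mul_eq_zero.1 e3).resolve_left (pow_ne_zero _ (by norm_num))
      have e5 : z < ψ := lt_of_le_of_ne hz.2 fun h => by rw [← h, e4] at s2; simp at s2
      have e6 : z ∉ Z := fun h => by linarith [(hZ z h).2.1, hz.1]
      refine ⟨ψ, ⟨hφ.1.trans hψ.1, hψ.2⟩, e2, insert z Z, by rw [card_insert_of_notMem e6, c],
        fun x hx => ?_⟩
      rcases mem_insert.1 hx with rfl | h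
      · exact ⟨hφ.1.trans hz.1, e5, e4⟩
      · exact ⟨(hZ x h).1, (hZ x h).2.1.trans_le hψ.1, (hZ x h).2.2⟩
  obtain ⟨φ, hφ, -, Z, c, hZ⟩ := key n le_rfl
  exact ⟨Z, c, fun z hz => ⟨⟨(hZ z hz).1, (hZ z hz).2.1.le.trans hφ.2⟩, (hZ z hz).2.2⟩⟩

end Pool.Agent.MP_108ce6_nt.H25
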