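import Pool.Agent.MP_108ce6_nt.H25.A

/-! Choice of the multiplier, scaled Chebyshev polynomials and the product polynomial. -/

namespace Pool.Agent.MP_108ce6_nt.H25

open Finset Polynomial

lemma geo {x : ℝ} (hx : 1 < x) (E : ℕ) : ∑ i ∈ range E, x⁻¹ ^ (i + 1) ≤ 1 / (x - 1) := by
  have h1 : 0 < x - 1 := by linarith
  have h0 : x ≠ 0 := by positivity
  have : ∑ i ∈ range E, x⁻¹ ^ (i + 1) = (1 - x⁻¹ ^ E) / (x - 1) := by
    induction E with
    | zero => simp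
    | succ E ih =>
      rw [sum_range_succ, ih, pow_succ]
      field_simp
      ring
  rw [this]
  have : 0 ≤ x⁻¹ ^ E := by positivity
  gcongr
  linarith

lemma choose_a {τ lam B : ℝ} {K : ℕ} (hτ : 0 < τ) (hK : 1 ≤ K) (hl : 0 < lam) (hl2 : lam ≤ 1 / 2)
    (hB : Real.log (2 * (8 * K ^ 2 + 1)) + 2 * lam ^ 2 / τ ≤ lam * B)
    (t : ℕ → (ℕ → ℝ) → ℝ) (ht : ∀ k a b, (∀ j < k, a j = b j) → t k a = t k b) :
    ∃ a : ℕ → ℝ, (∀ k < K, |a k| * (1 + τ) ^ (k + 1) ≤ 2 ∧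
        ∃ z : ℤ, (t k a + a k) * ((1 + τ) ^ 2) ^ (k + 1) = 2 * z) ∧
      ∀ φ : ℝ, |φ| ≤ Real.pi →
        ∑ k ∈ range K, a k * ((1 + τ) ^ (k + 1) * Real.cos ((k + 1 : ℕ) * φ)) ≤ B + 1 ∧
        ∑ k ∈ range K, a k * (-1 * Real.cos ((k + 1 : ℕ) * φ)) ≤ B + 1 := by
  set r := 1 + τ with hr
  have r1 : 1 < r := by linarith
  have r0 : 0 < r := by linarith
  have K0 : (1 : ℝ) ≤ K := by exact_mod_cast hK
  let u : Bool → ℕ → ℝ := fun b k => if b then r ^ (k + 1) else -1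
  have hu : ∀ b k, 2 * (r ^ 2)⁻¹ ^ (k + 1) * |u b k| ≤ 2 * r⁻¹ ^ (k + 1) := by
    intro b k
    have e1 : |u b k| ≤ r ^ (k + 1) := by
      cases b
      · simpa [u] using one_le_pow₀ r1.le
      · simp [u, abs_of_pos r0]
    refine (mul_le_mul_of_nonneg_left e1 (by positivity)).trans (le_of_eq ?_)
    rw [mul_assoc, ← mul_pow]
    congr 2
    field_simp
  have g1 : ∀ k, r⁻¹ ^ (k + 1) ≤ 1 := fun k =>
    pow_le_one₀ (by positivity) (inv_le_one_of_one_le₀ r1.le)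
  have hy : ∀ b k (θ : ℝ), 2 * (r ^ 2)⁻¹ ^ (k + 1) * |lam * (u b k * Real.cos θ)| ≤
      2 * lam * r⁻¹ ^ (k + 1) := by
    intro b k θ
    rw [abs_mul, abs_mul, abs_of_pos hl]
    have e1 := mul_le_mul (hu b k) (Real.abs_cos_le_one θ) (abs_nonneg _) (by positivity)
    nlinarith
  obtain ⟨a, ha, hs⟩ := online (ι := Fin (8 * K ^ 2 + 1) × Bool)
    (fun i k => lam * (u i.2 k * Real.cos ((k + 1 : ℕ) * ((i.1 : ℕ) / (2 * K ^ 2)))))
    (fun k => 2 * (r ^ 2)⁻¹ ^ (k + 1)) (fun k => 4 * lam ^ 2 * (r ^ 2)⁻¹ ^ (k + 1)) t ht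
    (fun k => by positivity)
    (fun i k => (hy _ k _).trans (mul_le_one₀ (by linarith) (by positivity) (g1 k)))
    (fun i k => by
      have e1 := hy i.2 k ((k + 1 : ℕ) * ((i.1 : ℕ) / (2 * K ^ 2)))
      have e2 := pow_le_pow_left₀ (by positivity) e1 2
      rw [mul_pow, sq_abs, ← mul_pow] at e2
      refine e2.trans (le_of_eq ?_)
      rw [← inv_pow, ← pow_mul, mul_pow, mul_pow, ← pow_mul, mul_comm (k + 1) 2]
      norm_num) K
  have hau : ∀ b, ∀ k < K, |a k| * |u b k| ≤ 2 := fun b k hk =>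
    (mul_le_mul_of_nonneg_right (ha k hk).1 (abs_nonneg _)).trans
      ((hu b k).trans (by linarith [g1 k]))
  have hV : ∑ k ∈ range K, 4 * lam ^ 2 * (r ^ 2)⁻¹ ^ (k + 1) ≤ 2 * lam ^ 2 / τ := by
    rw [← mul_sum]
    have e1 := geo (x := r ^ 2) (by nlinarith) K
    have e2 : 1 / (r ^ 2 - 1) ≤ 1 / (2 * τ) :=
      one_div_le_one_div_of_le (by positivity) (by rw [hr]; nlinarith)
    refine (mul_le_mul_of_nonneg_left (e1.trans e2) (by positivity)).trans (le_of_eq ?_)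
    field_simp
    norm_num
  have hnet : ∀ (b : Bool) (i : Fin (8 * K ^ 2 + 1)), ∑ k ∈ range K,
      a k * (u b k * Real.cos ((k + 1 : ℕ) * ((i : ℕ) / (2 * K ^ 2)))) ≤ B := by
    intro b i
    have e1 := (single_le_sum (f := fun i : Fin (8 * K ^ 2 + 1) × Bool => Real.exp (∑ k ∈ range K,
      a k * (lam * (u i.2 k * Real.cos ((k + 1 : ℕ) * ((i.1 : ℕ) / (2 * K ^ 2)))))))
      (fun i _ => (Real.exp_pos _).le) (mem_univ (i, b))).trans hs
    have e2 : (Fintype.card (Fin (8 * K ^ 2 + 1) × Bool) : ℝ) = 2 * (8 * K ^ 2 + 1) := by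
      simp [mul_comm]
    rw [e2, ← Real.exp_log (by positivity : (0 : ℝ) < 2 * (8 * K ^ 2 + 1)), ← Real.exp_add,
      Real.exp_le_exp] at e1
    replace e1 := e1.trans ((add_le_add le_rfl hV).trans hB)
    simp only [mul_left_comm _ lam, ← mul_sum] at e1
    exact le_of_mul_le_mul_left e1 hl
  have hall : ∀ (b : Bool) (φ : ℝ), |φ| ≤ Real.pi →
      ∑ k ∈ range K, a k * (u b k * Real.cos ((k + 1 : ℕ) * φ)) ≤ B + 1 := by
    intro b φ hφ
    have p0 : 0 ≤ 2 * (K : ℝ) ^ 2 * |φ| := by positivity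
    have f1 := Nat.floor_le p0
    have f2 := Nat.lt_floor_add_one (2 * (K : ℝ) ^ 2 * |φ|)
    have f3 : ⌊2 * (K : ℝ) ^ 2 * |φ|⌋₊ < 8 * K ^ 2 + 1 := by
      rw [Nat.floor_lt p0]
      push_cast
      nlinarith [Real.pi_le_four]
    have e1 := hnet b ⟨_, f3⟩
    set θ : ℝ := (⌊2 * (K : ℝ) ^ 2 * |φ|⌋₊ : ℝ) / (2 * K ^ 2) with hθ
    have e2 : |(|φ| - θ)| ≤ 1 / (2 * K ^ 2) := by
      have : |φ| - θ = (2 * K ^ 2 * |φ| - ⌊2 * (K : ℝ) ^ 2 * |φ|⌋₊) / (2 * K ^ 2) := by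
        rw [hθ]; field_simp
      rw [this, abs_div, abs_of_pos (by positivity : (0 : ℝ) < 2 * K ^ 2)]
      gcongr
      exact abs_le.2 ⟨by linarith, by linarith⟩
    have e3 : ∀ k ∈ range K, a k * (u b k * Real.cos ((k + 1 : ℕ) * φ)) ≤
        a k * (u b k * Real.cos ((k + 1 : ℕ) * θ)) + 1 / K := by
      intro k hk
      have hk' := mem_range.1 hk
      have c0 : Real.cos ((k + 1 : ℕ) * φ) = Real.cos ((k + 1 : ℕ) * |φ|) := by
        rw [← Real.cos_abs, abs_mul, Nat.abs_cast]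
      have c1 := Real.abs_cos_sub_cos_le ((k + 1 : ℕ) * |φ|) ((k + 1 : ℕ) * θ)
      rw [← mul_sub, abs_mul, Nat.abs_cast, ← c0] at c1
      have c2 : ((k + 1 : ℕ) : ℝ) ≤ K := by exact_mod_cast hk'
      have c3 := c1.trans (mul_le_mul c2 e2 (abs_nonneg _) (by positivity))
      have c4 := mul_le_mul (hau b k hk') c3 (abs_nonneg _) (by norm_num)
      have c5 : 2 * ((K : ℝ) * (1 / (2 * K ^ 2))) = 1 / K := by field_simp
      rw [← abs_mul, ← abs_mul, c5] at c4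
      linarith [(abs_le.1 c4).2]
    have e4 := sum_le_sum e3
    rw [sum_add_distrib, sum_const, card_range, nsmul_eq_mul, mul_one_div_cancel (by positivity)] at e4
    exact e4.trans (by linarith)
  refine ⟨a, fun k hk => ⟨?_, ?_⟩, fun φ hφ => ⟨hall true φ hφ, hall false φ hφ⟩⟩
  · simpa [u, abs_of_pos r0] using hau true k hk
  · obtain ⟨z, hz⟩ := (ha k hk).2
    refine ⟨z, ?_⟩
    rw [hz, inv_pow]
    field_simp

/-- scaled Chebyshev polynomials -/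
noncomputable def cb (c ρ : ℝ) : ℕ → ℝ[X]
  | 0 => C 2
  | 1 => X - C c
  | j + 2 => (X - C c) * cb c ρ (j + 1) - C (ρ ^ 2) * cb c ρ j

lemma cb_eval (c ρ φ : ℝ) (j : ℕ) :
    (cb c ρ j).eval (c + 2 * ρ * Real.cos φ) = 2 * ρ ^ j * Real.cos (j * φ) := by
  induction j using Nat.twoStepInduction with
  | zero => simp [cb]
  | one => simp [cb]
  | more j h0 h1 =>
    simp only [cb, eval_sub, eval_mul, eval_X, eval_C, h0, h1]
    have e1 : ((j + 2 : ℕ) : ℝ) * φ = (j + 1 : ℕ) * φ + φ := by push_cast; ring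
    have e2 : (j : ℝ) * φ = (j + 1 : ℕ) * φ - φ := by push_cast; ring
    rw [e1, e2, Real.cos_add, Real.cos_sub]
    ring

lemma cb_coeff (c ρ : ℝ) (j : ℕ) :
    (∀ i, j < i → (cb c ρ j).coeff i = 0) ∧ (1 ≤ j → (cb c ρ j).coeff j = 1) := by
  induction j using Nat.twoStepInduction with
  | zero => exact ⟨fun i hi => by simp [cb, coeff_C, hi.ne'], by simp⟩
  | one =>
    refine ⟨fun i hi => ?_, fun _ => by simp [cb]⟩
    have h0 : i ≠ 0 := by omega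
    simp [cb, coeff_C, coeff_X, hi.ne, h0]
  | more j h0 h1 =>
    refine ⟨fun i hi => ?_, fun _ => ?_⟩
    · obtain ⟨i, rfl⟩ : ∃ i', i = i' + 1 := ⟨i - 1, by omega⟩
      simp only [cb, sub_mul, coeff_sub, coeff_X_mul, coeff_C_mul]
      rw [h1.1 i (by omega), h1.1 (i + 1) (by omega), h0.1 (i + 1) (by omega)]
      ring
    · simp only [cb, sub_mul, coeff_sub, coeff_X_mul, coeff_C_mul]
      rw [h1.2 (by omega), h1.1 (j + 2) (by omega), h0.1 (j + 2) (by omega)]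
      ring

/-- the product polynomial -/
noncomputable def hh (M : ℕ) (a : ℕ → ℝ) (k : ℕ) : ℝ[X] :=
  ∏ j ∈ range k, (1 + C (a j / M) * X ^ (j + 1)) ^ M

lemma hh_zero (M : ℕ) (a : ℕ → ℝ) (k : ℕ) : (hh M a k).coeff 0 = 1 := by
  simp [hh, coeff_zero_eq_eval_zero, eval_prod]

lemma hh_step {M : ℕ} (hM : M ≠ 0) (a : ℕ → ℝ) (k : ℕ) :
    X ^ (k + 2) ∣ hh M a (k + 1) - hh M a k - C (a k) * X ^ (k + 1) := by
  obtain ⟨q, hq⟩ := sq_dvd_add_pow_sub_sub (C (a k / M) * X ^ (k + 1) : ℝ[X]) 1 M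
  obtain ⟨s, hs⟩ : X ∣ hh M a k - 1 := X_dvd_iff.2 (by simp [hh_zero])
  have e : C (a k / M) * (M : ℝ[X]) = C (a k) := by
    rw [← map_natCast C, ← map_mul, div_mul_cancel₀ _ (by exact_mod_cast hM)]
  have e1 : hh M a (k + 1) = hh M a k * (1 + C (a k / M) * X ^ (k + 1)) ^ M := prod_range_succ _ _
  refine ⟨s * C (a k) + hh M a k * C (a k / M) ^ 2 * X ^ k * q, ?_⟩
  rw [one_pow, one_pow] at hq
  rw [e1]
  linear_combination (hh M a k) * hq + (hh M a k * X ^ (k + 1)) * e + (C (a k) * X ^ (k + 1)) * hs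

lemma hh_coeff {M : ℕ} (hM : M ≠ 0) (a : ℕ → ℝ) {k K m : ℕ} (hk : k < K) (hm : m ≤ k + 1) :
    (hh M a K).coeff m = (hh M a k).coeff m + if m = k + 1 then a k else 0 := by
  have key : ∀ k, ∀ m ≤ k + 1,
      (hh M a (k + 1)).coeff m = (hh M a k).coeff m + if m = k + 1 then a k else 0 := by
    intro k m hm
    have := X_pow_dvd_iff.1 (hh_step hM a k) m (by omega)
    rw [coeff_sub, coeff_sub, coeff_C_mul, coeff_X_pow] at this
    split_ifs at this ⊢ <;> linarith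
  induction K, hk using Nat.le_induction with
  | base => exact key k m hm
  | succ K hK ih => rw [key K m (by omega), ih, if_neg (by omega : ¬m = K + 1), add_zero]

end Pool.Agent.MP_108ce6_nt.H25
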