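import Pool.Agent.MP_108ce6_nt.H25.B

/-! The logarithm of the product polynomial, and bounds for its coefficients. -/

namespace Pool.Agent.MP_108ce6_nt.H25

open Finset Polynomial

/-- logarithm of the product polynomial -/
noncomputable def ff (K : ℕ) (a : ℕ → ℝ) (w : ℂ) : ℂ :=
  ∑ k ∈ range K, ((4 * K : ℕ) : ℂ) * Complex.log (1 + ((a k / (4 * K : ℕ) : ℝ) : ℂ) * w ^ (k + 1))

section
variable {K : ℕ} {a : ℕ → ℝ} {r : ℝ} (ha : ∀ k < K, |a k| * r ^ (k + 1) ≤ 2)
include ha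

lemma small {w : ℂ} (hw : ‖w‖ ≤ r) {k : ℕ} (hk : k < K) :
    ‖((a k / (4 * K : ℕ) : ℝ) : ℂ) * w ^ (k + 1)‖ ≤ 1 / (2 * K) := by
  have K0 : (0 : ℝ) < K := by exact_mod_cast (by omega : 0 < K)
  rw [norm_mul, Complex.norm_real, norm_pow, Real.norm_eq_abs, abs_div, Nat.abs_cast]
  have e1 := (mul_le_mul_of_nonneg_left (pow_le_pow_left₀ (norm_nonneg _) hw (k + 1))
    (abs_nonneg (a k))).trans (ha k hk)
  push_cast
  rw [div_mul_eq_mul_div, div_le_div_iff₀ (by positivity) (by positivity)]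
  nlinarith

lemma small' {w : ℂ} (hw : ‖w‖ ≤ r) {k : ℕ} (hk : k < K) :
    ‖((a k / (4 * K : ℕ) : ℝ) : ℂ) * w ^ (k + 1)‖ ≤ 1 / 2 := by
  have K0 : (1 : ℝ) ≤ K := by exact_mod_cast (by omega : 1 ≤ K)
  exact (small ha hw hk).trans (one_div_le_one_div_of_le (by norm_num) (by linarith))

lemma ff_exp {w : ℂ} (hw : ‖w‖ ≤ r) : aeval w (hh (4 * K) a K) = Complex.exp (ff K a w) := by
  rw [ff, Complex.exp_sum, hh, map_prod]
  refine prod_congr rfl fun k hk => ?_
  rw [Complex.exp_nat_mul, Complex.exp_log (Complex.slitPlane_ne_zero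
    (Complex.mem_slitPlane_of_norm_lt_one ((small' ha hw (mem_range.1 hk)).trans_lt (by norm_num))))]
  simp

lemma ff_norm {w : ℂ} (hw : ‖w‖ ≤ r) :
    ‖ff K a w - ∑ k ∈ range K, (a k : ℂ) * w ^ (k + 1)‖ ≤ 1 := by
  rcases Nat.eq_zero_or_pos K with rfl | hK
  · simp [ff]
  have K0 : (0 : ℝ) < K := by exact_mod_cast hK
  rw [ff, ← sum_sub_distrib]
  refine (norm_sum_le _ _).trans ((sum_le_sum (g := fun _ => 1 / (K : ℝ))
    fun k hk => ?_).trans ?_)
  · have s1 := small ha hw (mem_range.1 hk)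
    have s2 := small' ha hw (mem_range.1 hk)
    have e : (a k : ℂ) * w ^ (k + 1) =
        ((4 * K : ℕ) : ℂ) * (((a k / (4 * K : ℕ) : ℝ) : ℂ) * w ^ (k + 1)) := by
      rw [← mul_assoc, ← Complex.ofReal_natCast, ← Complex.ofReal_mul,
        mul_div_cancel₀ _ (by positivity)]
    set z := ((a k / (4 * K : ℕ) : ℝ) : ℂ) * w ^ (k + 1)
    rw [e, ← mul_sub, norm_mul, Complex.norm_natCast]
    have e1 := Complex.norm_log_one_add_sub_self_le (s2.trans_lt (by norm_num))
    have e2 : (1 - ‖z‖)⁻¹ ≤ 2 := by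
      rw [inv_le_comm₀ (by linarith) (by norm_num)]; linarith
    have e3 := mul_le_mul (pow_le_pow_left₀ (norm_nonneg _) s1 2) e2
      (inv_nonneg.2 (by linarith)) (by positivity)
    have e4 : ((4 * K : ℕ) : ℝ) * ((1 / (2 * K)) ^ 2 * 2 / 2) = 1 / K := by
      push_cast; field_simp; norm_num
    rw [← e4]
    exact mul_le_mul_of_nonneg_left (by linarith) (by positivity)
  · rw [sum_const, card_range, nsmul_eq_mul, mul_one_div_cancel K0.ne']

lemma ff_re {w : ℂ} (hw : ‖w‖ ≤ r) :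
    |(ff K a w).re - ∑ k ∈ range K, a k * (w ^ (k + 1)).re| ≤ 1 := by
  have := (Complex.abs_re_le_norm _).trans (ff_norm ha hw)
  simpa only [Complex.sub_re, Complex.re_sum, Complex.re_ofReal_mul] using this

lemma ff_le {w : ℂ} (hr : 1 < r) (hw : ‖w‖ = 1) : ‖ff K a w‖ ≤ 2 / (r - 1) + 1 := by
  have e1 := ff_norm ha (hw.trans_le hr.le)
  have e2 : ‖∑ k ∈ range K, (a k : ℂ) * w ^ (k + 1)‖ ≤ ∑ k ∈ range K, 2 * r⁻¹ ^ (k + 1) := by
    refine (norm_sum_le _ _).trans (sum_le_sum fun k hk => ?_)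
    rw [norm_mul, norm_pow, hw, one_pow, mul_one, Complex.norm_real, Real.norm_eq_abs, inv_pow,
      ← div_eq_mul_inv, le_div_iff₀ (by positivity)]
    exact ha k (mem_range.1 hk)
  rw [← mul_sum] at e2
  have e3 := geo hr K
  have e4 := norm_le_norm_add_norm_sub' (ff K a w) (∑ k ∈ range K, (a k : ℂ) * w ^ (k + 1))
  rw [div_eq_mul_one_div]
  linarith

lemma ff_im {x : ℝ} (hx : |x| ≤ r) : (ff K a x).im = 0 := by
  rw [ff, Complex.im_sum]
  refine sum_eq_zero fun k hk => ?_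
  have s2 := small' ha (w := x) (by simpa using hx) (mem_range.1 hk)
  rw [← Complex.ofReal_pow, ← Complex.ofReal_mul] at s2 ⊢
  rw [Complex.norm_real, Real.norm_eq_abs] at s2
  rw [← Complex.ofReal_one, ← Complex.ofReal_add, ← Complex.ofReal_log
    (by linarith [(abs_le.1 s2).1]), ← Complex.ofReal_natCast, ← Complex.ofReal_mul,
    Complex.ofReal_im]

lemma ff_cont (hr : 1 ≤ r) : Continuous fun φ : ℝ => ff K a (Complex.exp (φ * Complex.I)) := by
  refine continuous_finsetSum _ fun k hk => continuous_const.mul (Continuous.clog (by fun_prop)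
    fun φ => Complex.mem_slitPlane_of_norm_lt_one ((small' ha ?_ (mem_range.1 hk)).trans_lt
      (by norm_num)))
  rwa [Complex.norm_exp_ofReal_mul_I]

end

lemma cauchy (p : ℝ[X]) {r A : ℝ} (hr : 0 < r) (hA : 0 ≤ A)
    (h : ∀ u : ℂ, ‖u‖ = 1 → ‖aeval (r * u) p‖ ≤ A) (m : ℕ) : |p.coeff m| * r ^ m ≤ A := by
  set q : ℂ[X] := (p.map (algebraMap ℝ ℂ)).comp (C (r : ℂ) * X) with hq
  have e1 : ‖q.coeff m‖ = |p.coeff m| * r ^ m := by
    rw [hq, comp_C_mul_X_coeff, coeff_map, norm_mul, norm_pow]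
    simp [abs_of_pos hr]
  have e2 : ‖q.coeff m‖ ^ 2 ≤ A ^ 2 := by
    by_cases hm : m ∈ q.support
    · refine (single_le_sum (f := fun i => ‖q.coeff i‖ ^ 2) (fun i _ => sq_nonneg _) hm).trans ?_
      rw [sum_sq_norm_coeff_eq_circleAverage]
      refine Real.circleAverage_mono_on_of_le_circle
        (Continuous.continuousOn (by fun_prop)).circleIntegrable' fun u hu => ?_
      have := h u (by simpa using hu)
      rw [hq, eval_comp, eval_mul, eval_C, eval_X, eval_map_algebraMap]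
      exact pow_le_pow_left₀ (norm_nonneg _) this 2
    · rw [notMem_support_iff.1 hm, norm_zero]; simpa using sq_nonneg A
  rw [← e1]
  exact (pow_le_pow_iff_left₀ (norm_nonneg _) hA (by norm_num)).1 e2

lemma re_pow (s φ : ℝ) (k : ℕ) :
    (((s : ℂ) * Complex.exp (φ * Complex.I)) ^ k).re = s ^ k * Real.cos (k * φ) := by
  rw [mul_pow, ← Complex.exp_nat_mul, ← Complex.ofReal_pow, Complex.re_ofReal_mul, ← mul_assoc,
    ← Complex.ofReal_natCast, ← Complex.ofReal_mul, Complex.exp_ofReal_mul_I_re]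

lemma trig (p : ℝ[X]) (F : ℂ) (φ n : ℝ) {D : ℕ} (hD : p.natDegree < D)
    (h : aeval (Complex.exp (φ * Complex.I)) p = Complex.exp F) :
    ∑ m ∈ range D, p.coeff m * Real.cos ((n - m) * φ) =
      Real.exp F.re * Real.cos (n * φ - F.im) := by
  have e := congrArg (fun z => (z * Complex.exp ((-(n * φ) : ℝ) * Complex.I)).re) h
  rw [aeval_eq_sum_range' hD, sum_mul, Complex.re_sum, ← Complex.exp_add, Complex.exp_re] at e
  have e1 : (F + (-(n * φ) : ℝ) * Complex.I).re = F.re := by simp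
  have e2 : (F + (-(n * φ) : ℝ) * Complex.I).im = -(n * φ - F.im) := by simp; ring
  rw [e1, e2, Real.cos_neg] at e
  rw [← e]
  refine sum_congr rfl fun m _ => ?_
  rw [Complex.real_smul, mul_assoc, Complex.re_ofReal_mul, ← Complex.exp_nat_mul,
    ← Complex.exp_add, ← Real.cos_neg, ← Complex.exp_ofReal_mul_I_re]
  congr 3
  push_cast
  ring

end Pool.Agent.MP_108ce6_nt.H25
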