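import Pool.Agent.MP_108ce6_nt.H25.C

/-! A real monic polynomial with even top coefficients that oscillates on the interval, and
the integer polynomials obtained from it. -/

namespace Pool.Agent.MP_108ce6_nt.H25

open Finset Polynomial

theorem top (c : ℝ) {τ lam B : ℝ} {n K : ℕ} (hτ : 0 < τ) (hK : 1 ≤ K) (hn : K < n) (hl : 0 < lam)
    (hl2 : lam ≤ 1 / 2) (hB : Real.log (2 * (8 * K ^ 2 + 1)) + 2 * lam ^ 2 / τ ≤ lam * B) :
    ∃ (P : ℝ[X]) (Θ : ℝ → ℝ), (∀ i, n < i → P.coeff i = 0) ∧ P.coeff n = 1 ∧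
      (∀ i, n - K ≤ i → i < n → ∃ z : ℤ, P.coeff i = 2 * z) ∧ Continuous Θ ∧ Θ 0 = 0 ∧
      Θ Real.pi = n * Real.pi ∧ (∀ φ, n * φ - (2 / τ + 1) ≤ Θ φ) ∧ ∀ φ ∈ Set.Icc 0 Real.pi, ∃ E, Real.exp (-(B + 2)) ≤ E ∧
        |P.eval (c + 2 * (1 + τ) ^ 2 * Real.cos φ) - 2 * ((1 + τ) ^ 2) ^ n * (E * Real.cos (Θ φ))| ≤
          2 * ((1 + τ) ^ 2) ^ n * (Real.exp (B + 2) * (1 + τ)⁻¹ ^ K / τ) := by
  set ρ := (1 + τ) ^ 2 with hρ
  have ρ0 : 0 < ρ := by positivity
  have r1 : 1 < 1 + τ := by linarith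
  have hM : 4 * K ≠ 0 := by omega
  obtain ⟨a, ha, hφ⟩ := choose_a hτ hK hl hl2 hB (fun k a => (ρ ^ (k + 1))⁻¹ *
    ∑ m ∈ range (k + 2), (hh (4 * K) a k).coeff m * ρ ^ m * (cb c ρ (n - m)).coeff (n - (k + 1)))
    (fun k a b h => by
      have : hh (4 * K) a k = hh (4 * K) b k :=
        prod_congr rfl fun j hj => by rw [h j (mem_range.1 hj)]
      simp only [this])
  have ha1 : ∀ k < K, |a k| * (1 + τ) ^ (k + 1) ≤ 2 := fun k hk => (ha k hk).1
  set H := hh (4 * K) a K with hH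
  have hc : ∀ m, |H.coeff m| * (1 + τ) ^ m ≤ Real.exp (B + 2) := by
    refine cauchy H (by linarith) (Real.exp_pos _).le fun u hu => ?_
    have e0 : u = Complex.exp (u.arg * Complex.I) := by
      conv_lhs => rw [← Complex.norm_mul_exp_arg_mul_I u, hu, Complex.ofReal_one, one_mul]
    have e1 : ‖((1 + τ : ℝ) : ℂ) * u‖ ≤ 1 + τ := by
      rw [norm_mul, hu, mul_one, Complex.norm_real, Real.norm_eq_abs, abs_of_pos (by linarith)]
    have e2 := (abs_le.1 (ff_re ha1 e1)).2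
    rw [hH, ff_exp ha1 e1, Complex.norm_exp, Real.exp_le_exp]
    have e3 := (hφ u.arg u.abs_arg_le_pi).1
    simp only [← re_pow, ← e0] at e3
    linarith
  refine ⟨∑ m ∈ range (K + 1), C (H.coeff m * ρ ^ m) * cb c ρ (n - m),
    fun φ => n * φ - (ff K a (Complex.exp (φ * Complex.I))).im, fun i hi => ?_, ?_,
    fun i h1 h2 => ?_, ?_, ?_, ?_, fun φ => ?_, fun φ hφ' => ?_⟩
  · rw [finsetSum_coeff]
    exact sum_eq_zero fun m _ => by rw [coeff_C_mul, (cb_coeff c ρ _).1 i (by omega), mul_zero]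
  · rw [finsetSum_coeff, sum_range_succ', sum_eq_zero fun m _ => by
      rw [coeff_C_mul, (cb_coeff c ρ _).1 n (by omega), mul_zero]]
    rw [coeff_C_mul, hH, hh_zero, Nat.sub_zero, (cb_coeff c ρ _).2 (by omega)]
    simp
  · obtain ⟨k, rfl, hk⟩ : ∃ k, i = n - (k + 1) ∧ k < K := ⟨n - i - 1, by omega, by omega⟩
    obtain ⟨z, hz⟩ := (ha k hk).2
    refine ⟨z, ?_⟩
    rw [← hz, finsetSum_coeff, ← sum_subset (range_subset_range.2 (by omega : k + 2 ≤ K + 1))
      fun m h3 h4 => by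
        rw [mem_range] at h3 h4
        rw [coeff_C_mul, (cb_coeff c ρ _).1 _ (by omega), mul_zero]]
    have e : ∀ m ∈ range (k + 2), (C (H.coeff m * ρ ^ m) * cb c ρ (n - m)).coeff (n - (k + 1)) =
        (hh (4 * K) a k).coeff m * ρ ^ m * (cb c ρ (n - m)).coeff (n - (k + 1)) +
          if m = k + 1 then a k * ρ ^ (k + 1) else 0 := by
      intro m hm
      rw [coeff_C_mul, hH, hh_coeff hM a hk (by simpa [Nat.lt_succ_iff] using hm)]
      split_ifs with h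
      · rw [h, (cb_coeff c ρ _).2 (by omega)]; ring
      · ring
    rw [sum_congr rfl e, sum_add_distrib, sum_ite_eq', if_pos (by simp), ← hρ]
    field_simp
  · exact (continuous_const.mul continuous_id).sub
      (Complex.continuous_im.comp (ff_cont ha1 r1.le))
  · have := ff_im ha1 (x := 1) (by simpa using hτ.le)
    simpa using this
  · have := ff_im ha1 (x := -1) (by simpa using hτ.le)
    simpa using this
  · have := (Complex.im_le_norm _).trans (ff_le ha1 r1 (Complex.norm_exp_ofReal_mul_I φ))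
    rw [add_sub_cancel_left] at this
    exact sub_le_sub_left this _
  · have e1 : ‖Complex.exp (φ * Complex.I)‖ ≤ 1 + τ := by
      rw [Complex.norm_exp_ofReal_mul_I]; exact r1.le
    refine ⟨Real.exp (ff K a (Complex.exp (φ * Complex.I))).re, ?_, ?_⟩
    · have e2 := (abs_le.1 (ff_re ha1 e1)).1
      have e3 := (hφ φ (by rw [abs_of_nonneg hφ'.1]; exact hφ'.2)).2
      have e4 : ∀ k : ℕ, (Complex.exp (φ * Complex.I) ^ k).re = Real.cos (k * φ) := fun k => by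
        simpa using re_pow 1 φ k
      simp only [e4] at e2
      simp only [neg_mul, one_mul, mul_neg, sum_neg_distrib] at e3
      rw [Real.exp_le_exp]
      linarith
    · have e2 := trig H _ φ n (D := K + 1 + H.natDegree) (by omega) (ff_exp ha1 e1)
      have e3 : ∀ m ∈ range (K + 1), (C (H.coeff m * ρ ^ m) * cb c ρ (n - m)).eval
          (c + 2 * ρ * Real.cos φ) = 2 * ρ ^ n * (H.coeff m * Real.cos ((n - m) * φ)) := by
        intro m hm
        have hm' : m ≤ n := by rw [mem_range] at hm; omega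
        rw [eval_mul, eval_C, cb_eval, Nat.cast_sub hm', ← pow_sub_mul_pow ρ hm']
        ring
      rw [← e2, eval_finsetSum, sum_congr rfl e3, ← mul_sum, ← mul_sub, abs_mul,
        abs_of_pos (by positivity : 0 < 2 * ρ ^ n), sum_range_add _ (K + 1), sub_add_cancel_left,
        abs_neg]
      refine mul_le_mul_of_nonneg_left ((abs_sum_le_sum_abs _ _).trans ((sum_le_sum
        (g := fun i => Real.exp (B + 2) * (1 + τ)⁻¹ ^ K * (1 + τ)⁻¹ ^ (i + 1))
        fun i _ => ?_).trans ?_)) (by positivity)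
      · rw [abs_mul, mul_assoc, ← pow_add, inv_pow, ← div_eq_mul_inv, le_div_iff₀ (by positivity),
          mul_right_comm, (by omega : K + (i + 1) = K + 1 + i)]
        exact (mul_le_of_le_one_right (by positivity) (Real.abs_cos_le_one _)).trans (hc _)
      · rw [← mul_sum, div_eq_mul_one_div]
        have := geo r1 H.natDegree
        rw [add_sub_cancel_left] at this
        exact mul_le_mul_of_nonneg_left this (by positivity)

theorem core (c : ℝ) {τ lam B : ℝ} {n K : ℕ} (hτ : 0 < τ) (hK : 1 ≤ K) (hn : K < n)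
    (hl : 0 < lam) (hl2 : lam ≤ 1 / 2) (hB0 : 0 ≤ B)
    (hB : Real.log (2 * (8 * K ^ 2 + 1)) + 2 * lam ^ 2 / τ ≤ lam * B)
    (hc : 2 * Real.exp (B + 2) ^ 2 < τ * (1 + τ) ^ K) {m : ℕ} (hm : m ≤ (1 + τ) ^ K)
    {b : ℝ} (hb : b ∈ Set.Icc 0 Real.pi) (hb' : Real.pi + (2 / τ + 1) ≤ n * b) :
    ∃ T : Finset ℝ[X], m ^ (n - K) ≤ T.card ∧ ∀ R ∈ T, R.Monic ∧ R.natDegree = n ∧
      (∀ i < n, ∃ z : ℤ, R.coeff i = 2 * z) ∧ (∃ z : ℤ, R.coeff 0 = 2 + 4 * z) ∧
      R.roots.card = n ∧ (∀ y ∈ R.roots, |y - c| ≤ 2 * (1 + τ) ^ 2) ∧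
      ∃ y ∈ R.roots, c + (2 - b ^ 2) * (1 + τ) ^ 2 ≤ y := by
  classical
  obtain ⟨P, Θ, p1, p2, p3, t1, t2, t3, t4, p4⟩ := top c hτ hK hn hl hl2 hB
  set ρ := (1 + τ) ^ 2 with hρ
  have ρ1 : 1 + 2 * τ ≤ ρ := by rw [hρ]; nlinarith
  have ρ0 : 0 < ρ := by linarith
  obtain ⟨T, hT, hR⟩ := round (fun j => if j = 0 then 1 else cb c ρ j)
    (Set.range fun φ => c + 2 * ρ * Real.cos φ) (fun j => 2 * ρ ^ j)
    (fun j i h => by
      split_ifs
      · exact coeff_one.trans (if_neg (by omega))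
      · exact (cb_coeff c ρ j).1 i h)
    (fun j => by
      split_ifs with h
      · simp [h]
      · exact (cb_coeff c ρ j).2 (by omega))
    (by
      rintro j _ ⟨φ, rfl⟩
      split_ifs with h
      · simp [h]
      · rw [cb_eval, abs_mul, abs_of_pos (by positivity)]
        exact mul_le_of_le_one_right (by positivity) (Real.abs_cos_le_one _)) m (n - K) P
  refine ⟨T, hT, fun R hRT => ?_⟩
  obtain ⟨e1, e2, e3⟩ := hR R hRT
  have d1 : R.natDegree ≤ n :=
    natDegree_le_iff_coeff_eq_zero.2 fun i hi => by rw [e1 i (by omega), p1 i hi]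
  have d2 : R.coeff n = 1 := by rw [e1 n (by omega), p2]
  have d3 := monic_of_natDegree_le_of_coeff_eq_one n d1 d2
  set A := Real.exp (B + 2) with hA
  have A2 : 2 ≤ A := by linarith [Real.add_one_le_exp (B + 2)]
  set s := (1 + τ)⁻¹ ^ K / τ with hs
  have s0 : 0 < s := by positivity
  have s1 : 2 * A * s < A⁻¹ := by
    rw [hs, inv_pow, ← one_div A, lt_div_iff₀ (by linarith), div_eq_mul_inv, ← mul_inv,
      mul_right_comm, ← div_eq_mul_inv, div_lt_one (by positivity)]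
    linarith
  have s2 : ∑ j ∈ range (n - K), 4 * m * (2 * ρ ^ j) ≤ 2 * ρ ^ n * (A * s) := by
    rw [← mul_sum, ← mul_sum, geom_sum_eq (by linarith)]
    have f1 : (ρ ^ (n - K) - 1) / (ρ - 1) ≤ ρ ^ (n - K) / (2 * τ) := by
      gcongr <;> linarith
    have f2 : (1 + τ) ^ K * (ρ ^ (n - K) / (2 * τ)) = ρ ^ n * s / 2 := by
      have : ρ ^ K = (1 + τ) ^ K * (1 + τ) ^ K := by rw [hρ, sq, mul_pow]
      rw [hs, inv_pow, ← pow_sub_mul_pow ρ hn.le, this]
      field_simp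
    have f3 := (mul_le_mul_of_nonneg_left f1 m.cast_nonneg).trans
      (mul_le_mul_of_nonneg_right hm (by positivity))
    have f4 := mul_le_mul_of_nonneg_right A2 (by positivity : 0 ≤ ρ ^ n * s)
    linarith
  have sg : ∀ φ ∈ Set.Icc 0 Real.pi, ∀ j : ℕ, Θ φ = j * Real.pi →
      0 < (-1) ^ j * R.eval (c + 2 * ρ * Real.cos φ) := fun φ hφ j hj => by
    obtain ⟨E, f1, f2⟩ := p4 φ hφ
    have f3 := e3 _ ⟨φ, rfl⟩
    rw [hj, Real.cos_nat_mul_pi, mul_div_assoc, ← hs] at f2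
    rw [Real.exp_neg, ← hA] at f1
    have f4 := mul_lt_mul_of_pos_left (s1.trans_le f1) (by positivity : 0 < 2 * ρ ^ n)
    have f5 := abs_le.1 f2
    have f6 := abs_le.1 (f3.trans s2)
    rcases neg_one_pow_eq_or ℝ j with h | h <;> rw [h] at f5 ⊢ <;> linarith [f5.1, f5.2]
  obtain ⟨Z, hZ, hz⟩ := zeros Θ (fun φ => R.eval (c + 2 * ρ * Real.cos φ)) n t1 (by fun_prop)
    t2 Real.pi_pos.le t3.ge sg
  obtain ⟨Y, hY, hy⟩ := zeros Θ (fun φ => R.eval (c + 2 * ρ * Real.cos φ)) 1 t1 (by fun_prop)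
    t2 hb.1 (by have := t4 b; push_cast; linarith) fun φ hφ => sg φ ⟨hφ.1, hφ.2.trans hb.2⟩
  have inj : Set.InjOn (fun φ => c + 2 * ρ * Real.cos φ) Z := fun x hx y hy h =>
    Real.injOn_cos (hz x hx).1 (hz y hy).1
      (mul_left_cancel₀ (by positivity : 2 * ρ ≠ 0) (add_left_cancel h))
  have hZ' := (card_image_of_injOn inj).trans hZ
  have hr := roots_eq_of_natDegree_le_card_of_ne_zero (p := R) (S := Z.image _)
    (fun x hx => by obtain ⟨φ, h, rfl⟩ := mem_image.1 hx; exact (hz φ h).2)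
    (d1.trans hZ'.ge) d3.ne_zero
  refine ⟨d3, natDegree_eq_of_le_of_coeff_ne_zero d1 (d2 ▸ one_ne_zero), fun i hi => ?_,
    e2 0 (by omega), by rw [hr]; exact hZ', fun y hy => ?_, ?_⟩
  · by_cases h : i < n - K
    · obtain ⟨z, hz⟩ := e2 i h
      exact ⟨1 + 2 * z, by rw [hz]; push_cast; ring⟩
    · rw [e1 i (by omega)]; exact p3 i (by omega) hi
  · rw [hr] at hy
    obtain ⟨φ, -, rfl⟩ := mem_image.1 hy
    rw [add_sub_cancel_left, abs_mul, abs_of_pos (by positivity)]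
    exact mul_le_of_le_one_right (by positivity) (Real.abs_cos_le_one _)
  · obtain ⟨φ, hφ⟩ := card_pos.1 (by omega : 0 < Y.card)
    obtain ⟨⟨f1, f2⟩, f3⟩ := hy φ hφ
    refine ⟨_, (mem_roots d3.ne_zero).2 f3, ?_⟩
    have f4 := Real.one_sub_sq_div_two_le_cos (x := φ)
    have f5 := pow_le_pow_left₀ f1 f2 2
    nlinarith

lemma lift {R : ℝ[X]} {n : ℕ} (hn : 0 < n) (h1 : R.Monic) (h2 : R.natDegree = n)
    (h3 : ∀ i < n, ∃ z : ℤ, R.coeff i = 2 * z) (h4 : ∃ z : ℤ, R.coeff 0 = 2 + 4 * z) :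
    ∃ P : ℤ[X], P.map (algebraMap ℤ ℝ) = R ∧ P.Monic ∧ Irreducible P ∧ P.natDegree = n := by
  obtain ⟨P, e1, e2, e3⟩ := lifts_and_natDegree_eq_and_monic
    ((lifts_iff_coeff_lifts (f := algebraMap ℤ ℝ) R).2 fun i => by
      rcases lt_trichotomy i n with h | h | h
      · obtain ⟨z, hz⟩ := h3 i h
        exact ⟨2 * z, by simp [hz]⟩
      · exact ⟨1, by rw [h, ← h2, h1.coeff_natDegree, map_one]⟩
      · exact ⟨0, by rw [coeff_eq_zero_of_natDegree_lt (h2 ▸ h), map_zero]⟩) h1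
  have c : ∀ i, R.coeff i = (P.coeff i : ℤ) := fun i => by rw [← e1, coeff_map]; rfl
  rw [h2] at e2
  have hp : (Ideal.span {(2 : ℤ)}).IsPrime :=
    (Ideal.span_singleton_prime (by norm_num)).2 Int.prime_two
  refine ⟨P, e1, e3, IsEisensteinAt.irreducible (𝓟 := Ideal.span {(2 : ℤ)}) ⟨?_, fun {i} hi => ?_,
    ?_⟩ hp e3.isPrimitive (e2 ▸ hn), e2⟩
  · rw [e3.leadingCoeff, Ideal.mem_span_singleton]; norm_num
  · obtain ⟨z, hz⟩ := h3 i (e2 ▸ hi)
    rw [c] at hz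
    exact Ideal.mem_span_singleton.2 ⟨z, by exact_mod_cast hz⟩
  · obtain ⟨z, hz⟩ := h4
    rw [c] at hz
    have : P.coeff 0 = 2 + 4 * z := by exact_mod_cast hz
    rw [Ideal.span_singleton_pow, Ideal.mem_span_singleton, this]
    omega

end Pool.Agent.MP_108ce6_nt.H25
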